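import Pool.Agent.H381.TauN.E

/-!
# MP_766682_al, Q1: the `τ_n`-perpendicular class of a `τ_n`-tilting module is preenveloping

The theorem `result` below answers Q1 positively, for all Artin algebras, all `n ≥ 1` and all
`τ_n`-tilting modules. How the definitions match the problem:

* Artin algebra: `Λ` is a module-finite algebra over a commutative artinian ring `k`; modules are
  left `Λ`-modules, `mod Λ` = finitely generated modules.
* `MinimalResolution n M`: the complex `P_n → ⋯ → P_1 → P_0` (`P_i` in degree `-i`) given by the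
  first terms of a minimal projective resolution `⋯ → P_1 → P_0 → M → 0`: the terms are finitely
  generated projective, the augmented complex is exact, all kernels are superfluous.
* `IsSilting`: presilting, and each triangulated subcategory of the homotopy category containing
  `add P` contains `K^b(proj Λ)` (the objects `IsPerfect`). `M` is `τ_n`-tilting when
  `P^•_{≥ -n}(M)` is silting.
* `tau`: `τ_n M = τ Ω^{n-1} M = D Tr Ω^{n-1} M`, where `P_n → P_{n-1} → Ω^{n-1} M → 0` is a minimal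
  projective presentation, `Tr` is the cokernel of `Hom_Λ(P_{n-1}, Λ) → Hom_Λ(P_n, Λ)` and
  `D = Hom_k(-, E)` with `E` an injective envelope of `k / rad k`.
* `perp`: finitely generated `N` with `Hom_Λ(N, τ_n M) = 0` and `Ext^i_Λ(M, N) = 0` for
  `1 ≤ i ≤ n - 1` (Mathlib's `Ext` in the category of `Λ`-modules).
* `IsPreenveloping`: as in the problem.

Idea of the proof: work in the derived category with its standard t-structure. For the silting
complex `P`, let `U` be the class of `Y` (represented by complexes with finitely generated terms)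
with `Hom(P, Y[i]) = 0` for `i > 0`. Since `P` generates, `U` is bounded above, and killing
`Hom(P, Y)` by cones shows that `U` lies in `D^{≤ 0}`. For a module `C` with `Hom(P, C[j]) = 0` for
`j > r`, kill `Hom(P[-s], -)` for `s = r, …, 1` to get a left `U`-approximation `C → Y`; each map
from `C` to a module in the class factors through `H = H^0(Y)`, and because `P` has cohomology only
in degrees `0` and `-n` one gets `Hom(P, H[j]) = 0` for `j > r - 1`. Iterating from `r = n` ends in
the class.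
-/

set_option autoImplicit false

open CategoryTheory Limits Pretriangulated MulOpposite

universe u

namespace Pool.Agent.Results.MP_766682_al.TauNTiltingPreenveloping

section Duality

variable (k Λ : Type u) [CommRing k] [Ring Λ] [Algebra k Λ]

/-- `E` is an injective envelope of the `k`-module `k / rad k`. -/
def IsInjectiveEnvelope (E : Type u) [AddCommGroup E] [Module k E] : Prop :=
  Module.Injective k E ∧ ∃ ι : (k ⧸ Ring.jacobson k) →ₗ[k] E, Function.Injective ι ∧
    ∀ S : Submodule k E, S ⊓ LinearMap.range ι = ⊥ → S = ⊥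

variable {Λ} in
/-- right multiplication by `a` on a right `Λ`-module -/
def rightMul (W : Type u) [AddCommGroup W] [Module k W] [Module Λᵐᵒᵖ W] [IsScalarTower k Λᵐᵒᵖ W]
    (a : Λ) : W →ₗ[k] W where
  toFun w := op a • w
  map_add' := smul_add _
  map_smul' c w := by
    rw [RingHom.id_apply, ← algebraMap_smul Λᵐᵒᵖ c w, ← algebraMap_smul Λᵐᵒᵖ c, smul_smul, smul_smul,
      Algebra.commutes]

/-- The dual `D W = Hom_k(W, E)` of a right `Λ`-module `W` (a module over `Λᵐᵒᵖ`). With `E` the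
injective envelope of `k / rad k` this is the duality of the Artin algebra `Λ`. -/
def Dual (E : Type u) [AddCommGroup E] [Module k E]
    (W : Type u) [AddCommGroup W] [Module k W] [Module Λᵐᵒᵖ W] [IsScalarTower k Λᵐᵒᵖ W] : Type u :=
  W →ₗ[k] E

instance (E : Type u) [AddCommGroup E] [Module k E]
    (W : Type u) [AddCommGroup W] [Module k W] [Module Λᵐᵒᵖ W] [IsScalarTower k Λᵐᵒᵖ W] :
    AddCommGroup (Dual k Λ E W) := inferInstanceAs (AddCommGroup (W →ₗ[k] E))

/-- `D W` is a left `Λ`-module: `(a φ)(w) = φ(w a)`. -/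
instance (E : Type u) [AddCommGroup E] [Module k E]
    (W : Type u) [AddCommGroup W] [Module k W] [Module Λᵐᵒᵖ W] [IsScalarTower k Λᵐᵒᵖ W] :
    Module Λ (Dual k Λ E W) where
  smul a φ := LinearMap.comp (show W →ₗ[k] E from φ) (rightMul k W a)
  one_smul φ := LinearMap.ext fun w => congrArg (show W →ₗ[k] E from φ) (one_smul Λᵐᵒᵖ w)
  mul_smul a b φ := LinearMap.ext fun w => by
    change (show W →ₗ[k] E from φ) (op (a * b) • w) = (show W →ₗ[k] E from φ) (op b • op a • w)
    rw [op_mul, mul_smul]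
  smul_zero a := rfl
  smul_add a φ ψ := rfl
  add_smul a b φ := LinearMap.ext fun w => by
    change (show W →ₗ[k] E from φ) ((op a + op b) • w) =
      (show W →ₗ[k] E from φ) (op a • w) + (show W →ₗ[k] E from φ) (op b • w)
    exact (congrArg (show W →ₗ[k] E from φ) (add_smul _ _ _)).trans (map_add _ _ _)
  zero_smul φ := LinearMap.ext fun w => by
    change (show W →ₗ[k] E from φ) ((0 : Λᵐᵒᵖ) • w) = 0
    exact (congrArg (show W →ₗ[k] E from φ) (zero_smul _ _)).trans (map_zero _)

variable {Λ} in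
/-- `Hom_Λ(f, Λ)`, a map of right `Λ`-modules -/
def transposeMap {P Q : Type u} [AddCommGroup P] [Module Λ P] [AddCommGroup Q] [Module Λ Q]
    (f : P →ₗ[Λ] Q) : (Q →ₗ[Λ] Λ) →ₗ[Λᵐᵒᵖ] (P →ₗ[Λ] Λ) where
  toFun g := g.comp f
  map_add' _ _ := rfl
  map_smul' _ _ := rfl

end Duality

section Transpose

variable {Λ : Type u} [Ring Λ] {P Q : Type u} [AddCommGroup P] [Module Λ P] [AddCommGroup Q]
  [Module Λ Q]

/-- The transpose: the cokernel of `Hom_Λ(f, Λ)`. If `P → Q → X → 0` is a minimal projective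
presentation of `X`, this is `Tr X`. -/
def Tr (f : P →ₗ[Λ] Q) : Type u := (P →ₗ[Λ] Λ) ⧸ LinearMap.range (transposeMap f)

instance (f : P →ₗ[Λ] Q) : AddCommGroup (Tr f) :=
  inferInstanceAs (AddCommGroup ((P →ₗ[Λ] Λ) ⧸ LinearMap.range (transposeMap f)))

/-- `Tr` is a right `Λ`-module. -/
instance (f : P →ₗ[Λ] Q) : Module Λᵐᵒᵖ (Tr f) :=
  inferInstanceAs (Module Λᵐᵒᵖ ((P →ₗ[Λ] Λ) ⧸ LinearMap.range (transposeMap f)))

instance (k : Type u) [CommRing k] [Algebra k Λ] (f : P →ₗ[Λ] Q) : Module k (Tr f) :=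
  inferInstanceAs (Module k ((P →ₗ[Λ] Λ) ⧸ LinearMap.range (transposeMap f)))

instance (k : Type u) [CommRing k] [Algebra k Λ] (f : P →ₗ[Λ] Q) : IsScalarTower k Λᵐᵒᵖ (Tr f) :=
  inferInstanceAs (IsScalarTower k Λᵐᵒᵖ ((P →ₗ[Λ] Λ) ⧸ LinearMap.range (transposeMap f)))

/-- the class in `Tr f` of a linear form -/
def Tr.mk (f : P →ₗ[Λ] Q) (χ : P →ₗ[Λ] Λ) : Tr f := (LinearMap.range (transposeMap f)).mkQ χ

lemma Tr.mk_surjective (f : P →ₗ[Λ] Q) : Function.Surjective (Tr.mk f) :=
  Submodule.mkQ_surjective _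

lemma Tr.mk_sum (f : P →ₗ[Λ] Q) {r : ℕ} (χ : Fin r → (P →ₗ[Λ] Λ)) :
    Tr.mk f (∑ i, χ i) = ∑ i, Tr.mk f (χ i) := by
  exact map_sum (LinearMap.range (transposeMap f)).mkQ _ _

end Transpose

section DualityLemmas

variable {k Λ : Type u} [CommRing k] [Ring Λ] [Algebra k Λ]

lemma exists_ne_zero_hom [IsArtinianRing k] {E : Type u} [AddCommGroup E] [Module k E]
    (hE : IsInjectiveEnvelope k E) {X : Type u} [AddCommGroup X] [Module k X] (v : X) (hv : v ≠ 0) :
    ∃ B : X →ₗ[k] E, B v ≠ 0 := by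
  classical
  obtain ⟨hinj, ι, hι, -⟩ := hE
  have hker : LinearMap.ker (LinearMap.toSpanSingleton k X v) ≠ ⊤ := by
    intro h
    apply hv
    have h1 : (1 : k) ∈ LinearMap.ker (LinearMap.toSpanSingleton k X v) := by rw [h]; trivial
    simpa using h1
  obtain ⟨m, hm, hle⟩ := Ideal.exists_le_maximal _ hker
  have : Fintype (MaximalSpectrum k) := Fintype.ofFinite _
  let m0 : MaximalSpectrum k := ⟨m, hm⟩
  obtain ⟨x, hx1, hx2⟩ : ∃ x ∈ ∏ m' ∈ Finset.univ.erase m0, m'.asIdeal, x ∉ m := by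
    by_contra hcon
    push Not at hcon
    obtain ⟨m', hm', h⟩ := (Ideal.IsPrime.prod_le hm.isPrime).1 hcon
    have h2 : m'.asIdeal = m := m'.isMaximal.eq_of_le hm.ne_top h
    exact (Finset.mem_erase.1 hm').1 (MaximalSpectrum.ext h2)
  have hx3 : ∀ m' : MaximalSpectrum k, m' ≠ m0 → x ∈ m'.asIdeal := fun m' hm' =>
    (Ideal.prod_le_inf.trans (Finset.inf_le (Finset.mem_erase.2 ⟨hm', Finset.mem_univ _⟩))) hx1
  have hJ : ∀ c ∈ m, c * x ∈ Ring.jacobson k := by
    intro c hc
    rw [Ring.jacobson_eq_sInf_isMaximal, Ideal.mem_sInf]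
    intro I hI
    by_cases h : (⟨I, hI⟩ : MaximalSpectrum k) = m0
    · have h2 : I = m := congrArg MaximalSpectrum.asIdeal h
      rw [h2]
      exact Ideal.mul_mem_right _ _ hc
    · exact Ideal.mul_mem_left _ _ (hx3 ⟨I, hI⟩ h)
  have hxJ : x ∉ Ring.jacobson k := by
    intro h
    rw [Ring.jacobson_eq_sInf_isMaximal, Ideal.mem_sInf] at h
    exact hx2 (h hm)
  let χ : k →ₗ[k] E := ι ∘ₗ LinearMap.toSpanSingleton k _ (Submodule.Quotient.mk x : k ⧸ Ring.jacobson k)
  have hχ : LinearMap.ker (LinearMap.toSpanSingleton k X v) ≤ LinearMap.ker χ := by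
    intro c hc
    have h1 := hJ c (hle hc)
    rw [LinearMap.mem_ker]
    change ι (c • (Submodule.Quotient.mk x : k ⧸ Ring.jacobson k)) = 0
    rw [← Submodule.Quotient.mk_smul, (Submodule.Quotient.mk_eq_zero _).2 (by simpa using h1), map_zero]
  let j : (k ⧸ LinearMap.ker (LinearMap.toSpanSingleton k X v)) →ₗ[k] X :=
    Submodule.liftQ _ (LinearMap.toSpanSingleton k X v) le_rfl
  have hj : Function.Injective j := by
    rw [← LinearMap.ker_eq_bot]
    exact Submodule.ker_liftQ_eq_bot _ _ _ le_rfl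
  obtain ⟨B, hB⟩ := hinj.out j hj (Submodule.liftQ _ χ hχ)
  refine ⟨B, ?_⟩
  have h1 := hB (Submodule.Quotient.mk 1)
  have h2 : j (Submodule.Quotient.mk 1) = v := by
    change (1 : k) • v = v
    rw [one_smul]
  rw [h2] at h1
  rw [h1]
  change χ 1 ≠ 0
  intro h
  apply hxJ
  have h3 : ι ((1 : k) • (Submodule.Quotient.mk x : k ⧸ Ring.jacobson k)) = ι 0 := by rw [map_zero]; exact h
  have h4 := hι h3
  rw [one_smul] at h4
  exact (Submodule.Quotient.mk_eq_zero _).1 h4

/-- dual basis -/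
lemma exists_dual_basis (P : Type u) [AddCommGroup P] [Module Λ P] [Module.Finite Λ P]
    [Module.Projective Λ P] : ∃ (m : ℕ) (e : Fin m → P) (φ : Fin m → (P →ₗ[Λ] Λ)),
      ∀ p, p = ∑ i, φ i p • e i := by
  obtain ⟨m, f, g, -, -, h⟩ := Module.Finite.exists_comp_eq_id_of_projective Λ P
  refine ⟨m, fun i => f (Pi.single i 1), fun i => (LinearMap.proj i).comp g, fun p => ?_⟩
  have h1 := LinearMap.congr_fun h p
  rw [LinearMap.comp_apply, LinearMap.id_apply] at h1
  conv_lhs => rw [← h1, pi_eq_sum_univ' (g p), map_sum]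
  refine Finset.sum_congr rfl fun i _ => ?_
  simp

lemma expand_dual {P : Type u} [AddCommGroup P] [Module Λ P] {m : ℕ} {e : Fin m → P}
    {φ : Fin m → (P →ₗ[Λ] Λ)} (h : ∀ p, p = ∑ i, φ i p • e i) (χ : P →ₗ[Λ] Λ) :
    χ = ∑ i, op (χ (e i)) • φ i := by
  ext p
  conv_lhs => rw [h p, map_sum]
  rw [LinearMap.sum_apply]
  refine Finset.sum_congr rfl fun i _ => ?_
  rw [map_smul]
  rfl

lemma hom_D_Tr_eq_zero_of {E : Type u} [AddCommGroup E] [Module k E]
    {P Q : Type u} [AddCommGroup P] [Module Λ P] [AddCommGroup Q] [Module Λ Q]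
    [Module.Finite Λ P] [Module.Projective Λ P] [Module.Finite Λ Q] [Module.Projective Λ Q]
    (f : P →ₗ[Λ] Q) (N : Type u) [AddCommGroup N] [Module Λ N]
    (H : ∀ g : P →ₗ[Λ] N, ∃ h : Q →ₗ[Λ] N, h.comp f = g)
    (F : N →ₗ[Λ] Dual k Λ E (Tr f)) : F = 0 := by
  obtain ⟨m, e, φ, he⟩ := exists_dual_basis (Λ := Λ) P
  obtain ⟨m', q, ψ, hq⟩ := exists_dual_basis (Λ := Λ) Q
  let b : (P →ₗ[Λ] Λ) → N →+ E := fun χ =>
    { toFun := fun x => (show Tr f →ₗ[k] E from F x) (Tr.mk f χ)
      map_zero' := by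
        rw [map_zero]
        rfl
      map_add' := fun x y => by
        rw [map_add]
        rfl }
  have hb1 : ∀ (χ : P →ₗ[Λ] Λ) (a : Λ) (x : N), b χ (a • x) = b (op a • χ) x := by
    intro χ a x
    change (show Tr f →ₗ[k] E from F (a • x)) (Tr.mk f χ) = _
    rw [map_smul]
    rfl
  have hb2 : ∀ {r : ℕ} (χ : Fin r → (P →ₗ[Λ] Λ)) (x : N), b (∑ i, χ i) x = ∑ i, b (χ i) x := by
    intro r χ x
    change (show Tr f →ₗ[k] E from F x) (Tr.mk f (∑ i, χ i)) = _
    rw [Tr.mk_sum, map_sum]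
    rfl
  have hb3 : ∀ (χ : Q →ₗ[Λ] Λ) (x : N), b (χ.comp f) x = 0 := by
    intro χ x
    have h1 : Tr.mk f (χ.comp f) = 0 :=
      (Submodule.Quotient.mk_eq_zero (LinearMap.range (transposeMap f))).2 ⟨χ, rfl⟩
    change (show Tr f →ₗ[k] E from F x) (Tr.mk f (χ.comp f)) = 0
    rw [h1, map_zero]
  have key : ∀ χ x, b χ x = 0 := by
    intro χ x
    obtain ⟨h, hh⟩ := H ((LinearMap.toSpanSingleton Λ N x).comp χ)
    have h1 : ∀ i, χ (e i) • x = ∑ j, ψ j (f (e i)) • h (q j) := by
      intro i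
      have h2 := LinearMap.congr_fun hh (e i)
      rw [LinearMap.comp_apply, LinearMap.comp_apply, LinearMap.toSpanSingleton_apply] at h2
      rw [← h2]
      conv_lhs => rw [hq (f (e i)), map_sum]
      exact Finset.sum_congr rfl fun j _ => map_smul _ _ _
    calc b χ x = b (∑ i, op (χ (e i)) • φ i) x := by rw [← expand_dual he χ]
      _ = ∑ i, b (φ i) (χ (e i) • x) := by
        rw [hb2]
        exact Finset.sum_congr rfl fun i _ => (hb1 _ _ _).symm
      _ = ∑ i, ∑ j, b (op (ψ j (f (e i))) • φ i) (h (q j)) := by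
        refine Finset.sum_congr rfl fun i _ => ?_
        rw [h1, map_sum]
        exact Finset.sum_congr rfl fun j _ => hb1 _ _ _
      _ = ∑ j, b (∑ i, op ((ψ j).comp f (e i)) • φ i) (h (q j)) := by
        rw [Finset.sum_comm]
        refine Finset.sum_congr rfl fun j _ => ?_
        rw [hb2]
        rfl
      _ = 0 := by
        refine Finset.sum_eq_zero fun j _ => ?_
        rw [← expand_dual he, hb3]
  refine LinearMap.ext fun x => ?_
  refine LinearMap.ext fun w => ?_
  obtain ⟨χ, rfl⟩ := Tr.mk_surjective f w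
  exact key χ x

lemma exists_of_hom_D_Tr_eq_zero [IsArtinianRing k] {E : Type u} [AddCommGroup E] [Module k E]
    (hE : IsInjectiveEnvelope k E)
    {P Q : Type u} [AddCommGroup P] [Module Λ P] [AddCommGroup Q] [Module Λ Q]
    [Module.Finite Λ P] [Module.Projective Λ P]
    (f : P →ₗ[Λ] Q) (N : Type u) [AddCommGroup N] [Module Λ N]
    (H : ∀ F : N →ₗ[Λ] Dual k Λ E (Tr f), F = 0) (g : P →ₗ[Λ] N) :
    ∃ h : Q →ₗ[Λ] N, h.comp f = g := by
  classical
  by_contra hcon
  obtain ⟨m, e, φ, he⟩ := exists_dual_basis (Λ := Λ) P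
  let _ : Module k N := Module.compHom N (algebraMap k Λ)
  have hsm : ∀ (c : k) (y : N), c • y = algebraMap k Λ c • y := fun c y => rfl
  have : IsScalarTower k Λ N := ⟨fun c a y => by rw [hsm, smul_smul, Algebra.smul_def]⟩
  have : SMulCommClass Λ k N := ⟨fun a c y => by
    rw [hsm, hsm, smul_smul, smul_smul, Algebra.commutes]⟩
  let R0 : Submodule k (P →ₗ[Λ] N) :=
    { carrier := {θ | ∃ h : Q →ₗ[Λ] N, h.comp f = θ}
      add_mem' := by
        rintro _ _ ⟨h, rfl⟩ ⟨h', rfl⟩
        exact ⟨h + h', rfl⟩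
      zero_mem' := ⟨0, rfl⟩
      smul_mem' := by
        rintro c _ ⟨h, rfl⟩
        exact ⟨c • h, rfl⟩ }
  have hv : (Submodule.Quotient.mk g : (P →ₗ[Λ] N) ⧸ R0) ≠ 0 := by
    intro h
    exact hcon ((Submodule.Quotient.mk_eq_zero _).1 h)
  obtain ⟨B, hB⟩ := exists_ne_zero_hom hE _ hv
  let β : N → (P →ₗ[Λ] Λ) →ₗ[k] E := fun x =>
    { toFun := fun χ => B (Submodule.Quotient.mk ((LinearMap.toSpanSingleton Λ N x).comp χ))
      map_add' := fun χ χ' => by
        rw [← map_add, ← Submodule.Quotient.mk_add, LinearMap.comp_add]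
      map_smul' := fun c χ => by
        rw [RingHom.id_apply, ← map_smul, ← Submodule.Quotient.mk_smul]
        congr 2
        ext p
        change (c • χ p) • x = c • (χ p • x)
        rw [smul_assoc] }
  have hβ : ∀ x, (LinearMap.range (transposeMap f)).restrictScalars k ≤ LinearMap.ker (β x) := by
    rintro x _ ⟨χ, rfl⟩
    rw [LinearMap.mem_ker]
    change B (Submodule.Quotient.mk ((LinearMap.toSpanSingleton Λ N x).comp (χ.comp f))) = 0
    have h0 : (LinearMap.toSpanSingleton Λ N x).comp (χ.comp f) ∈ R0 :=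
      ⟨(LinearMap.toSpanSingleton Λ N x).comp χ, rfl⟩
    rw [(Submodule.Quotient.mk_eq_zero _).2 h0, map_zero]
  let F0 : N → (Tr f →ₗ[k] E) := fun x =>
    (Submodule.liftQ _ (β x) (hβ x)).comp
      (Submodule.Quotient.restrictScalarsEquiv k (LinearMap.range (transposeMap f))).symm.toLinearMap
  have hF0 : ∀ (x : N) (χ : P →ₗ[Λ] Λ), F0 x (Tr.mk f χ) =
      B (Submodule.Quotient.mk ((LinearMap.toSpanSingleton Λ N x).comp χ)) := fun x χ => rfl
  let F : N →ₗ[Λ] Dual k Λ E (Tr f) :=
    { toFun := F0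
      map_add' := fun x y => by
        refine LinearMap.ext fun w => ?_
        obtain ⟨χ, rfl⟩ := Tr.mk_surjective f w
        change F0 (x + y) (Tr.mk f χ) = F0 x (Tr.mk f χ) + F0 y (Tr.mk f χ)
        rw [hF0, hF0, hF0, ← map_add, ← Submodule.Quotient.mk_add]
        congr 2
        ext p
        change χ p • (x + y) = χ p • x + χ p • y
        rw [smul_add]
      map_smul' := fun a x => by
        refine LinearMap.ext fun w => ?_
        obtain ⟨χ, rfl⟩ := Tr.mk_surjective f w
        change F0 (a • x) (Tr.mk f χ) = F0 x (Tr.mk f (op a • χ))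
        rw [hF0, hF0]
        congr 2
        ext p
        change χ p • (a • x) = (χ p * a) • x
        rw [mul_smul] }
  have hF : ∀ (x : N) (χ : P →ₗ[Λ] Λ), B (Submodule.Quotient.mk ((LinearMap.toSpanSingleton Λ N x).comp χ)) = 0 := by
    intro x χ
    rw [← hF0]
    have h1 := LinearMap.congr_fun (H F) x
    exact LinearMap.congr_fun (show F0 x = 0 from h1) (Tr.mk f χ)
  apply hB
  have hg : g = ∑ i, (LinearMap.toSpanSingleton Λ N (g (e i))).comp (φ i) := by
    ext p
    conv_lhs => rw [he p, map_sum]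
    rw [LinearMap.sum_apply]
    exact Finset.sum_congr rfl fun i _ => map_smul _ _ _
  have h2 : B (R0.mkQ g) = 0 := by
    rw [hg, map_sum, map_sum]
    exact Finset.sum_eq_zero fun i _ => hF _ _
  exact h2

end DualityLemmas

section Definitions

variable {Λ : Type u} [Ring Λ]

/-- finitely generated projective modules -/
def IsFGProjective (X : ModuleCat.{u} Λ) : Prop := Module.Finite Λ X ∧ Module.Projective Λ X

/-- zero modules -/
def IsZeroModule (X : ModuleCat.{u} Λ) : Prop := Subsingleton X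

/-- surjective homomorphisms -/
def IsSurjective {X Y : ModuleCat.{u} Λ} (f : X ⟶ Y) : Prop := Function.Surjective f.hom

/-- `X → Y → Z` is exact at `Y`: the kernel of `g` is the image of `f`. -/
def IsExact {X Y Z : ModuleCat.{u} Λ} (f : X ⟶ Y) (g : Y ⟶ Z) : Prop :=
  LinearMap.ker g.hom = LinearMap.range f.hom

/-- the kernel of `f` is superfluous (small); for `X` projective this says that `X → im f` is a
projective cover. -/
def HasSuperfluousKernel {X Y : ModuleCat.{u} Λ} (f : X ⟶ Y) : Prop :=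
  ∀ S : Submodule Λ X, S ⊔ LinearMap.ker f.hom = ⊤ → S = ⊤

variable (Λ) in
/-- the homotopy category of complexes of left `Λ`-modules -/
abbrev HoCat := HomotopyCategory (ModuleCat.{u} Λ) (ComplexShape.up ℤ)

/-- a complex, as an object of the homotopy category -/
abbrev toHoCat (P : CochainComplex (ModuleCat.{u} Λ) ℤ) : HoCat Λ :=
  (HomotopyCategory.quotient (ModuleCat.{u} Λ) (ComplexShape.up ℤ)).obj P

/-- the objects of `K^b(proj Λ)`: complexes isomorphic (in the homotopy category) to bounded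
complexes of finitely generated projective modules -/
def IsPerfect (X : HoCat Λ) : Prop :=
  ∃ L : CochainComplex (ModuleCat.{u} Λ) ℤ, (∀ i, IsFGProjective (L.X i)) ∧
    (∃ a b : ℤ, ∀ i, i < a ∨ b < i → IsZeroModule (L.X i)) ∧ Nonempty (X ≅ toHoCat L)

/-- `X` belongs to `add P`: it is a direct summand of a finite direct sum of copies of `P` -/
def IsInAdd (P X : HoCat Λ) : Prop :=
  ∃ (m : ℕ) (a : Fin m → (X ⟶ P)) (b : Fin m → (P ⟶ X)), ∑ j, a j ≫ b j = 𝟙 X

/-- silting complexes: `Hom(P, P[i]) = 0` for `i > 0`, and every triangulated subcategory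
containing `add P` contains `K^b(proj Λ)`. -/
structure IsSilting (P : HoCat Λ) : Prop where
  presilting : ∀ i : ℤ, 0 < i → ∀ f : P ⟶ P⟦i⟧, f = 0
  generates : ∀ S : ObjectProperty (HoCat Λ), S.IsTriangulated → S.IsClosedUnderIsomorphisms →
    (∀ X, IsInAdd P X → S X) → ∀ X, IsPerfect X → S X

/-- The complex `P^•_{≥ -n}(M) : P_n → ⋯ → P_1 → P_0` (with `P_i` in degree `-i`) given by the
first `n + 1` terms of a minimal projective resolution `⋯ → P_1 → P_0 → M → 0` -/
structure MinimalResolution (n : ℕ) (M : ModuleCat.{u} Λ) where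
  /-- the complex -/
  P : CochainComplex (ModuleCat.{u} Λ) ℤ
  fgProjective : ∀ i, IsFGProjective (P.X i)
  bounded : ∀ i : ℤ, i < -n ∨ 0 < i → IsZeroModule (P.X i)
  /-- the augmentation `P_0 → M` -/
  π : P.X 0 ⟶ M
  surjective : IsSurjective π
  exact_zero : IsExact (P.d (-1) 0) π
  exact : ∀ i : ℤ, -n < i → i < 0 → IsExact (P.d (i - 1) i) (P.d i (i + 1))
  minimal_zero : HasSuperfluousKernel π
  minimal : ∀ i : ℤ, -n ≤ i → i < 0 → HasSuperfluousKernel (P.d i (i + 1))

/-- `D Tr f` for a homomorphism `f : X → Y`. If `X → Y → Z → 0` is a minimal projective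
presentation, this is the Auslander-Reiten translate `τ Z = D Tr Z`. -/
def DTr (k : Type u) [CommRing k] [Algebra k Λ] (E : Type u) [AddCommGroup E] [Module k E]
    {X Y : ModuleCat.{u} Λ} (f : X ⟶ Y) : Type u := Dual k Λ E (Tr f.hom)

instance (k : Type u) [CommRing k] [Algebra k Λ] (E : Type u) [AddCommGroup E] [Module k E]
    {X Y : ModuleCat.{u} Λ} (f : X ⟶ Y) : AddCommGroup (DTr k E f) :=
  inferInstanceAs (AddCommGroup (Dual k Λ E (Tr f.hom)))

instance (k : Type u) [CommRing k] [Algebra k Λ] (E : Type u) [AddCommGroup E] [Module k E]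
    {X Y : ModuleCat.{u} Λ} (f : X ⟶ Y) : Module Λ (DTr k E f) :=
  inferInstanceAs (Module Λ (Dual k Λ E (Tr f.hom)))

/-- `τ_n M = τ Ω^{n-1} M = D Tr Ω^{n-1} M`, computed from the minimal projective presentation
`P_n → P_{n-1} → Ω^{n-1} M → 0` -/
def tau (k : Type u) [CommRing k] [Algebra k Λ] (E : Type u) [AddCommGroup E] [Module k E]
    {n : ℕ} {M : ModuleCat.{u} Λ} (R : MinimalResolution n M) : ModuleCat.{u} Λ :=
  ModuleCat.of Λ (DTr k E (R.P.d (-n) (-n + 1)))

/-- the `τ_n`-perpendicular class `M^{⊥_{τ_n}}` -/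
def perp (k : Type u) [CommRing k] [Algebra k Λ] (E : Type u) [AddCommGroup E] [Module k E]
    {n : ℕ} {M : ModuleCat.{u} Λ} (R : MinimalResolution n M) (N : ModuleCat.{u} Λ) : Prop :=
  Module.Finite Λ N ∧ (∀ f : N ⟶ tau k E R, f = 0) ∧
    ∀ i : ℕ, 1 ≤ i → i ≤ n - 1 → Subsingleton (Abelian.Ext M N i)

/-- preenveloping classes of finitely generated modules -/
def IsPreenveloping (𝒳 : ModuleCat.{u} Λ → Prop) : Prop :=
  ∀ C : ModuleCat.{u} Λ, Module.Finite Λ C → ∃ (Y : ModuleCat.{u} Λ) (f : C ⟶ Y), 𝒳 Y ∧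
    ∀ X : ModuleCat.{u} Λ, 𝒳 X → ∀ g : C ⟶ X, ∃ h : Y ⟶ X, f ≫ h = g

end Definitions

section Proof

open DerivedCategory Pool.Agent.H381.TauN

attribute [local instance] HasDerivedCategory.standard

variable {k Λ : Type u} [CommRing k] [Ring Λ] [Algebra k Λ]
variable {n : ℕ} {M : ModuleCat.{u} Λ} (R : MinimalResolution n M)

omit [Algebra k Λ] in
lemma isKProjective : R.P.IsKProjective := by
  have h1 : R.P.IsStrictlyLE 0 := by
    rw [CochainComplex.isStrictlyLE_iff]
    intro i hi
    have : Subsingleton (R.P.X i) := R.bounded i (Or.inr hi)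
    exact ModuleCat.isZero_of_subsingleton _
  have h2 : ∀ i : ℤ, Projective (R.P.X i) := fun i =>
    (IsProjective.iff_projective _).1 (R.fgProjective i).2
  exact CochainComplex.isKProjective_of_projective _ 0

omit [Algebra k Λ] in
lemma exactAt (i : ℤ) (h0 : i ≠ 0) (hn : i ≠ -n) : R.P.ExactAt i := by
  by_cases hi : i < -n ∨ 0 < i
  · have : Subsingleton (R.P.X i) := R.bounded i hi
    exact HomologicalComplex.ExactAt.of_isZero (ModuleCat.isZero_of_subsingleton _)
  · rw [HomologicalComplex.exactAt_iff' R.P (i - 1) i (i + 1) (by simp) (by simp),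
      ShortComplex.moduleCat_exact_iff]
    intro x hx
    have h1 : x ∈ LinearMap.ker (R.P.d i (i + 1)).hom := hx
    have h2 : LinearMap.ker (R.P.d i (i + 1)).hom = LinearMap.range (R.P.d (i - 1) i).hom :=
      R.exact i (by lia) (by lia)
    rw [h2] at h1
    exact h1

omit [Algebra k Λ] in
lemma finite_of_FGC [IsNoetherianRing Λ] (H : ModuleCat.{u} Λ)
    (h : FGC ((singleFunctor (ModuleCat.{u} Λ) 0).obj H)) : Module.Finite Λ H := by
  obtain ⟨L, hL, ⟨e⟩⟩ := h
  have e2 : L.homology 0 ≅ H := ((homologyFunctorFactors (ModuleCat.{u} Λ) 0).app L).symm ≪≫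
    (homologyFunctor (ModuleCat.{u} Λ) 0).mapIso e ≪≫
    (singleFunctorCompHomologyFunctorIso (ModuleCat.{u} Λ) 0).app H
  have hL0 := hL 0
  have h2 : Module.Finite Λ (L.cycles 0) :=
    Module.Finite.of_injective (L.iCycles 0).hom ((ModuleCat.mono_iff_injective _).1 inferInstance)
  have h3 : Module.Finite Λ (L.homology 0) :=
    Module.Finite.of_surjective (L.homologyπ 0).hom ((ModuleCat.epi_iff_surjective _).1 inferInstance)
  exact Module.Finite.equiv e2.toLinearEquiv

/-- maps from `P` to shifts of modules, in low degrees, and `Ext` -/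
lemma ext_iff (hn : 1 ≤ n) (N : ModuleCat.{u} Λ) (i : ℕ) (hi : i < n) :
    (∀ f : Q.obj R.P ⟶ ((singleFunctor (ModuleCat.{u} Λ) 0).obj N)⟦(i : ℤ)⟧, f = 0) ↔
      Subsingleton (Abelian.Ext M N i) := by
  have hKP := isKProjective R
  have hex : LinearMap.ker R.π.hom = LinearMap.range (R.P.d (-1) 0).hom := R.exact_zero
  have hd : R.P.d (-1) 0 ≫ R.π = 0 := by
    ext x
    have h1 : (R.P.d (-1) 0).hom x ∈ LinearMap.ker R.π.hom := by
      rw [hex]
      exact ⟨x, rfl⟩
    exact h1
  obtain ⟨W, β, γ, hT⟩ := distinguished_cocone_triangle (Q.map (aug R.P M R.π hd))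
  have hW := cone_isLE _ hT (n : ℤ) (by exact_mod_cast hn)
    (fun j hj hj0 => coh_zero R.P j (exactAt R j hj0 (by lia)))
    (fun j hj => coh_zero _ j (HomologicalComplex.exactAt_single_obj _ _ _ _ hj))
    (isIso_aug R.P M R.π hd R.surjective (by
      intro x hx
      have h1 : x ∈ LinearMap.ker R.π.hom := hx
      rw [hex] at h1
      exact h1) (R.bounded 1 (Or.inr one_pos)))
  have h1 := hom_zero_iff_of_cone _ hT (n : ℤ) (i : ℤ) hW ((singleFunctor (ModuleCat.{u} Λ) 0).obj N)
    inferInstance (by exact_mod_cast hi)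
  refine h1.trans ?_
  let e : Q.obj ((HomologicalComplex.single (ModuleCat.{u} Λ) (ComplexShape.up ℤ) 0).obj M) ≅
    (singleFunctor (ModuleCat.{u} Λ) 0).obj M := (singleFunctorIsoCompQ _ 0).symm.app _
  constructor
  · intro H
    have h2 : ∀ f : ShiftedHom ((singleFunctor (ModuleCat.{u} Λ) 0).obj M)
        ((singleFunctor (ModuleCat.{u} Λ) 0).obj N) (i : ℤ), f = 0 := by
      intro f
      have h3 := H (e.hom ≫ f)
      rw [← cancel_epi e.hom]
      exact h3.trans comp_zero.symm
    refine ⟨fun a b => Abelian.Ext.homEquiv.injective ?_⟩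
    rw [h2 (Abelian.Ext.homEquiv a), h2 (Abelian.Ext.homEquiv b)]
  · intro H f
    have h2 : ∀ f : ShiftedHom ((singleFunctor (ModuleCat.{u} Λ) 0).obj M)
        ((singleFunctor (ModuleCat.{u} Λ) 0).obj N) (i : ℤ), f = 0 := by
      intro f
      rw [← Abelian.Ext.homEquiv.apply_symm_apply f, ← Abelian.Ext.homEquiv.apply_symm_apply 0,
        Subsingleton.elim (Abelian.Ext.homEquiv.symm f) (Abelian.Ext.homEquiv.symm 0)]
    have h3 := h2 (e.inv ≫ f)
    exact (cancel_epi e.inv).1 (h3.trans comp_zero.symm)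

/-- the top degree -/
lemma top_iff [IsArtinianRing k] {E : Type u} [AddCommGroup E] [Module k E]
    (hE : IsInjectiveEnvelope k E) (N : ModuleCat.{u} Λ) :
    (∀ f : Q.obj R.P ⟶ ((singleFunctor (ModuleCat.{u} Λ) 0).obj N)⟦(n : ℤ)⟧, f = 0) ↔
      ∀ f : N ⟶ tau k E R, f = 0 := by
  have hKP := isKProjective R
  have hfin1 := (R.fgProjective (-n)).1
  have hfin2 := (R.fgProjective (-n + 1)).1
  have hproj1 := (R.fgProjective (-n)).2
  have hproj2 := (R.fgProjective (-n + 1)).2
  rw [hom_single_zero_iff R.P N (n : ℤ) (-n) (by lia)]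
  constructor
  · intro H f
    refine ModuleCat.hom_ext (hom_D_Tr_eq_zero_of (k := k) (E := E) (R.P.d (-n) (-n + 1)).hom N
      (fun g => ?_) f.hom)
    obtain ⟨h, hh⟩ := H (ModuleCat.ofHom g) (by
      have : Subsingleton (R.P.X (-n - 1)) := R.bounded (-n - 1) (Or.inl (by lia))
      exact (ModuleCat.isZero_of_subsingleton _).eq_of_src _ _)
    exact ⟨h.hom, congrArg ModuleCat.Hom.hom hh⟩
  · intro H g _
    obtain ⟨h, hh⟩ := exists_of_hom_D_Tr_eq_zero (k := k) hE (R.P.d (-n) (-n + 1)).hom N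
      (fun F => congrArg ModuleCat.Hom.hom (H (ModuleCat.ofHom F))) g.hom
    exact ⟨ModuleCat.ofHom h, ModuleCat.hom_ext hh⟩

lemma V_iff [IsArtinianRing k] [Module.Finite k Λ] {E : Type u} [AddCommGroup E] [Module k E]
    (hE : IsInjectiveEnvelope k E) (hn : 1 ≤ n) (N : ModuleCat.{u} Λ) (hN : Module.Finite Λ N) :
    V (Q.obj R.P) 0 ((singleFunctor (ModuleCat.{u} Λ) 0).obj N) ↔ perp k E R N := by
  have hKP := isKProjective R
  constructor
  · intro H
    refine ⟨hN, ?_, fun i hi1 hi2 => ?_⟩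
    · rw [← top_iff R hE, ← hom_shift_zero_iff _ _ (-n : ℤ) (n : ℤ) (by lia)]
      exact H _ (by lia)
    · rw [← ext_iff R hn N i (by lia), ← hom_shift_zero_iff _ _ (-i : ℤ) (i : ℤ) (by lia)]
      exact H _ (by lia)
  · rintro ⟨-, H1, H2⟩ a ha
    obtain ⟨i, rfl⟩ : ∃ i : ℕ, a = -(i : ℤ) := ⟨a.natAbs, by lia⟩
    rw [hom_shift_zero_iff _ _ (-i : ℤ) (i : ℤ) (by lia)]
    rcases lt_trichotomy i n with h | h | h
    · exact (ext_iff R hn N i h).2 (H2 i (by lia) (by lia))
    · subst h
      exact (top_iff R hE N).2 H1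
    · rw [hom_single_zero_iff R.P N (i : ℤ) (-i) (by lia)]
      intro g _
      have : Subsingleton (R.P.X (-i)) := R.bounded (-i) (Or.inl (by lia))
      exact ⟨0, (ModuleCat.isZero_of_subsingleton _).eq_of_src _ _⟩

/-- **Theorem.** Let `Λ` be an Artin algebra over the commutative artinian ring `k`, `n ≥ 1`, and
let `M` be a `τ_n`-tilting `Λ`-module, i.e. a finitely generated module such that
`P^•_{≥ -n}(M)` is silting. Then the `τ_n`-perpendicular class `M^{⊥_{τ_n}}` is preenveloping in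
`mod Λ`. -/
theorem result (k Λ : Type u) [CommRing k] [IsArtinianRing k] [Ring Λ] [Algebra k Λ]
    [Module.Finite k Λ] (E : Type u) [AddCommGroup E] [Module k E] (hE : IsInjectiveEnvelope k E)
    (n : ℕ) (hn : 1 ≤ n) (M : ModuleCat.{u} Λ) (_ : Module.Finite Λ M)
    (R : MinimalResolution n M) (hM : IsSilting (toHoCat R.P)) :
    IsPreenveloping (perp k E R) := by
  have hKP := isKProjective R
  have h1 : IsNoetherian k Λ := isNoetherian_of_isNoetherianRing_of_finite k Λ
  have : IsNoetherianRing Λ := isNoetherian_of_tower k h1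
  have S : Setup (Q.obj R.P) FGC (n : ℤ) :=
    { iso := fun {X Y} e h => by
        obtain ⟨L, hL, ⟨e'⟩⟩ := h
        exact ⟨L, hL, ⟨e' ≪≫ e⟩⟩
      shift := FGC_shift
      cone := fun s {Y Z} g h w hT hY => FGC_cone R.P (fun i => (R.fgProjective i).1) s g h w hT hY
      fg := fun Y s hY => FGC_fg (k := k) R.P (fun i => (R.fgProjective i).1) (Finset.Icc (-n : ℤ) 0) (by
        intro i hi
        apply R.bounded
        rw [Finset.mem_Icc, not_and_or] at hi
        rcases hi with h | h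
        · exact Or.inl (by lia)
        · exact Or.inr (by lia)) Y s hY
      rigid := rigid R.P hM.presilting
      coh := fun i h0 hn => coh_zero R.P i (exactAt R i h0 hn)
      le := fun Z hZ f => le_zero' R.P n (fun i hi => R.bounded i (Or.inl hi)) Z hZ f
      gen := gen R.P (by
        apply hM.generates (Bd R.P) inferInstance inferInstance
        · rintro X ⟨m, a, b, h⟩
          exact Bd_self R.P X m a b h
        · refine ⟨_, fun i => ?_, ⟨0, 0, fun i hi => ?_⟩, ⟨Iso.refl _⟩⟩
          · by_cases hi : i = 0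
            · subst hi
              have e := (HomologicalComplex.singleObjXSelf (ComplexShape.up ℤ) 0
                (ModuleCat.of Λ Λ)).symm.toLinearEquiv
              exact ⟨Module.Finite.equiv e, Module.Projective.of_equiv e⟩
            · have := ModuleCat.subsingleton_of_isZero
                (HomologicalComplex.isZero_single_obj_X (ComplexShape.up ℤ) 0 (ModuleCat.of Λ Λ) i hi)
              exact ⟨inferInstance, inferInstance⟩
          · exact ModuleCat.subsingleton_of_isZero (R := Λ)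
              (HomologicalComplex.isZero_single_obj_X (ComplexShape.up ℤ) 0 (ModuleCat.of Λ Λ) i (by lia)))
      hom := fun Y hY H e => FGC_hom (k := k) Y hY H e }
  intro C hC
  obtain ⟨H, f, hH1, hH2, hf⟩ := main S (by exact_mod_cast hn) n C (FGC_single C hC) (by
    intro a ha
    rw [hom_shift_zero_iff _ _ a (-a) (by lia), hom_single_zero_iff R.P C (-a) a (by lia)]
    intro g _
    have : Subsingleton (R.P.X a) := R.bounded a (Or.inl (by lia))
    exact ⟨0, (ModuleCat.isZero_of_subsingleton _).eq_of_src _ _⟩) le_rfl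
  refine ⟨H, f, (V_iff R hE hn H (finite_of_FGC H hH1)).1 hH2, fun X hX g => ?_⟩
  exact hf X ((V_iff R hE hn X hX.1).2 hX) g

end Proof

end Pool.Agent.Results.MP_766682_al.TauNTiltingPreenveloping
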